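import Pool.Agent.TriPack.Core

/-!
# Disjoint triangles in tripartite graphs under cyclic density conditions (MP_8091a7_co, Q1)

The question Q1 is answered in the affirmative: for every real `C > 1` there is `n₀` such that for
all `n ≥ n₀` and all `k ≥ 1` with `n > C k`, every tripartite graph with three classes of size
`n` whose edge densities form a `(k,n)`-cyclic triple contains `k` vertex-disjoint triangles.

Outline of the proof (`Pool.Agent.TriPack.*`). Let `X` be the class opposite to the densest pair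
`Y, Z`, and `x b`, `y c` the numbers of non-neighbours in `X` of `b ∈ Y`, `c ∈ Z`. If there is a
matching `e_1, …, e_k` between `Y` and `Z` such that `e_l = bc` has `x b + y c + l ≤ n`, then the
edges can be extended greedily to disjoint triangles. Otherwise two applications of Hall's
theorem give a structured obstruction (`Obs`): numbers `s + a + c + p = k - 1` and a set of
`p` levels whose rows and columns are both blocked. Depending on `p/n` the obstruction is
refuted by the theorem of Bondy, Shen, Thomassé and Thomassen, applied to one of three auxiliary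
graphs with handicapped vertices, or by a linear averaging argument.
-/

open Pool.Agent.TriPack

namespace Pool.Agent.Results.MP_8091a7_co.DisjointTriangles

/-- `G` is a tripartite graph with vertex classes `X`, `Y`, `Z`, each of size `n`. -/
structure Tripartite {V : Type*} (G : SimpleGraph V) (n : ℕ) (X Y Z : Finset V) : Prop where
  cardX : X.card = n
  cardY : Y.card = n
  cardZ : Z.card = n
  disjXY : Disjoint X Y
  disjXZ : Disjoint X Z
  disjYZ : Disjoint Y Z
  cover : ∀ v : V, v ∈ X ∨ v ∈ Y ∨ v ∈ Z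
  indepX : ∀ u ∈ X, ∀ v ∈ X, ¬ G.Adj u v
  indepY : ∀ u ∈ Y, ∀ v ∈ Y, ¬ G.Adj u v
  indepZ : ∀ u ∈ Z, ∀ v ∈ Z, ¬ G.Adj u v

/-- the density `e(G[X,Y]) / n^2` of the edges between the disjoint sets `X` and `Y`. -/
noncomputable def density {V : Type*} (G : SimpleGraph V) (n : ℕ) (X Y : Finset V) : ℝ :=
  (Nat.card {q : V × V // q.1 ∈ X ∧ q.2 ∈ Y ∧ G.Adj q.1 q.2} : ℝ) / (n : ℝ) ^ 2

/-- `(α, β, γ)` is a `(k,n)`-cyclic triple: all six inequalities, with `ε = (k-1)/n`. -/
def CyclicTriple (k n : ℕ) (α β γ : ℝ) : Prop :=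
  β * (α - ((k : ℝ) - 1) / n) + γ > 1 ∧ α * (β - ((k : ℝ) - 1) / n) + γ > 1 ∧
  γ * (α - ((k : ℝ) - 1) / n) + β > 1 ∧ α * (γ - ((k : ℝ) - 1) / n) + β > 1 ∧
  γ * (β - ((k : ℝ) - 1) / n) + α > 1 ∧ β * (γ - ((k : ℝ) - 1) / n) + α > 1

/-- `G` contains `k` vertex-disjoint triangles. -/
def HasDisjointTriangles {V : Type*} (G : SimpleGraph V) (k : ℕ) : Prop :=
  ∃ T : Fin k → Finset V, (∀ i, G.IsNClique 3 (T i)) ∧ ∀ i j, i ≠ j → Disjoint (T i) (T j)

variable {V : Type*}

theorem density_eq (G : SimpleGraph V) {n : ℕ} (hn : 0 < n) (X Y : Finset V)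
    (eX : Fin n ≃ X) (eY : Fin n ≃ Y) :
    density G n X Y = 1 - nd (fun a b => G.Adj (eX a : V) (eY b : V)) := by
  classical
  have h1 : Nat.card {q : V × V // q.1 ∈ X ∧ q.2 ∈ Y ∧ G.Adj q.1 q.2} =
      Nat.card {q : Fin n × Fin n // G.Adj (eX q.1 : V) (eY q.2 : V)} := by
    refine Nat.card_congr
      { toFun := fun q => ⟨(eX.symm ⟨q.1.1, q.2.1⟩, eY.symm ⟨q.1.2, q.2.2.1⟩), ?_⟩
        invFun := fun q => ⟨((eX q.1.1 : V), (eY q.1.2 : V)), (eX q.1.1).2, (eY q.1.2).2, q.2⟩
        left_inv := ?_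
        right_inv := ?_ }
    · simpa using q.2.2.2
    · intro q; ext <;> simp
    · intro q; ext <;> simp
  have h2 : Nat.card {q : Fin n × Fin n // G.Adj (eX q.1 : V) (eY q.2 : V)} +
      Nat.card {q : Fin n × Fin n // ¬ G.Adj (eX q.1 : V) (eY q.2 : V)} = n ^ 2 := by
    rw [Nat.card_eq_fintype_card, Nat.card_eq_fintype_card, Fintype.card_subtype_compl,
      Nat.add_sub_cancel' (Fintype.card_subtype_le _)]
    simp [pow_two]
  have h3 : (Nat.card {q : Fin n × Fin n // G.Adj (eX q.1 : V) (eY q.2 : V)} : ℝ) +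
      (Nat.card {q : Fin n × Fin n // ¬ G.Adj (eX q.1 : V) (eY q.2 : V)} : ℝ) = (n : ℝ) ^ 2 := by
    exact_mod_cast h2
  have hnr : (0 : ℝ) < n := by exact_mod_cast hn
  unfold density nd
  rw [h1, eq_sub_iff_add_eq, ← add_div, h3, div_self (by positivity)]

/-- the quantitative form. -/
theorem quantitative {n k : ℕ} (hk : 1 ≤ k) (hkn : k ≤ n)
    (hn : 450 * (n : ℝ) ≤ ((n : ℝ) - k + 1) ^ 2) (G : SimpleGraph V) (X Y Z : Finset V)
    (hT : Tripartite G n X Y Z)
    (hc : CyclicTriple k n (density G n X Y) (density G n X Z) (density G n Y Z)) :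
    HasDisjointTriangles G k := by
  classical
  have hn0 : 0 < n := by omega
  obtain ⟨hX, hY, hZ, dXY, dXZ, dYZ, -, -, -, -⟩ := hT
  let eX : Fin n ≃ X := (X.equivFinOfCardEq hX).symm
  let eY : Fin n ≃ Y := (Y.equivFinOfCardEq hY).symm
  let eZ : Fin n ≃ Z := (Z.equivFinOfCardEq hZ).symm
  rw [density_eq G hn0 X Y eX eY, density_eq G hn0 X Z eX eZ, density_eq G hn0 Y Z eY eZ] at hc
  obtain ⟨fa, fb, fc, ha, hb, hc', hf⟩ := main_rel hk hkn hn _ _ _ hc
  refine ⟨fun i => {(eX (fa i) : V), (eY (fb i) : V), (eZ (fc i) : V)}, fun i => ?_,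
    fun i j hij => ?_⟩
  · rw [SimpleGraph.is3Clique_triple_iff]
    exact hf i
  · have hXY : ∀ u v, (eX u : V) ≠ (eY v : V) := fun u v h =>
      Finset.disjoint_left.1 dXY (eX u).2 (h ▸ (eY v).2)
    have hXZ : ∀ u v, (eX u : V) ≠ (eZ v : V) := fun u v h =>
      Finset.disjoint_left.1 dXZ (eX u).2 (h ▸ (eZ v).2)
    have hYZ : ∀ u v, (eY u : V) ≠ (eZ v : V) := fun u v h =>
      Finset.disjoint_left.1 dYZ (eY u).2 (h ▸ (eZ v).2)
    have h1 : (eX (fa i) : V) ≠ (eX (fa j) : V) := fun h =>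
      hij (ha (eX.injective (Subtype.ext h)))
    have h2 : (eY (fb i) : V) ≠ (eY (fb j) : V) := fun h =>
      hij (hb (eY.injective (Subtype.ext h)))
    have h3 : (eZ (fc i) : V) ≠ (eZ (fc j) : V) := fun h =>
      hij (hc' (eZ.injective (Subtype.ext h)))
    rw [Finset.disjoint_left]
    intro v hv hw
    simp only [Finset.mem_insert, Finset.mem_singleton] at hv hw
    rcases hv with rfl | rfl | rfl
    · rcases hw with h | h | h
      · exact h1 h
      · exact hXY _ _ h
      · exact hXZ _ _ h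
    · rcases hw with h | h | h
      · exact hXY _ _ h.symm
      · exact h2 h
      · exact hYZ _ _ h
    · rcases hw with h | h | h
      · exact hXZ _ _ h.symm
      · exact hYZ _ _ h.symm
      · exact h3 h

/-- **Q1 of MP_8091a7_co, proved.** -/
theorem result : ∀ C : ℝ, 1 < C → ∃ n₀ : ℕ, ∀ n k : ℕ, n₀ ≤ n → 1 ≤ k → C * k < n →
    ∀ (V : Type*) (G : SimpleGraph V) (X Y Z : Finset V), Tripartite G n X Y Z →
      CyclicTriple k n (density G n X Y) (density G n X Z) (density G n Y Z) →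
      HasDisjointTriangles G k := by
  intro C hC
  have hC0 : 0 < C := by linarith
  have hq : 0 < 1 - 1 / C := by
    rw [sub_pos, div_lt_one hC0]; exact hC
  refine ⟨⌈450 / (1 - 1 / C) ^ 2⌉₊, fun n k hn hk hkn V G X Y Z hT hc => ?_⟩
  have hn1 : 450 / (1 - 1 / C) ^ 2 ≤ (n : ℝ) := (Nat.le_ceil _).trans (by exact_mod_cast hn)
  have hk1 : (1 : ℝ) ≤ k := by exact_mod_cast hk
  have hn0 : (0 : ℝ) < n := by
    have : 0 < C * k := by positivity
    linarith
  have hkC : (k : ℝ) < n / C := by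
    rw [lt_div_iff₀ hC0]; linarith
  have hkn' : (k : ℝ) ≤ n := by
    have : (k : ℝ) ≤ C * k := by
      have := mul_le_mul_of_nonneg_right hC.le (by linarith : (0 : ℝ) ≤ k)
      linarith
    linarith
  have e1 : (1 - 1 / C) * n ≤ (n : ℝ) - k + 1 := by
    have : (1 - 1 / C) * n = n - n / C := by ring
    linarith
  have e2 : 450 * (n : ℝ) ≤ ((n : ℝ) - k + 1) ^ 2 := by
    have h0 : 0 ≤ (1 - 1 / C) * (n : ℝ) := by positivity
    calc 450 * (n : ℝ) = 450 / (1 - 1 / C) ^ 2 * ((1 - 1 / C) ^ 2 * n) := by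
          rw [← mul_assoc, div_mul_cancel₀ _ (by positivity)]
      _ ≤ n * ((1 - 1 / C) ^ 2 * n) := mul_le_mul_of_nonneg_right hn1 (by positivity)
      _ = ((1 - 1 / C) * n) ^ 2 := by ring
      _ ≤ ((n : ℝ) - k + 1) ^ 2 := pow_le_pow_left₀ h0 e1 2
  exact quantitative hk (by exact_mod_cast hkn') e2 G X Y Z hT hc

end Pool.Agent.Results.MP_8091a7_co.DisjointTriangles
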